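import Pool.Agent.W348.RG.Stms

/-! Project RG: one rational vector in a Galois stable subspace. -/

set_option autoImplicit false

open Finset TensorProduct

namespace W320.RG

open Pool.Agent.W348.RG

theorem gal : S_gal := by
  intro V _ _ _ W hW hstab
  classical
  set b := Module.Free.chooseBasis ℚ V with hb
  set B := b.baseChange (AlgebraicClosure ℚ) with hB
  -- coordinates of the conjugate vector
  have hrepr : ∀ (σ : AlgebraicClosure ℚ ≃ₐ[ℚ] AlgebraicClosure ℚ)
      (z : AlgebraicClosure ℚ ⊗[ℚ] V) i,
      B.repr (LinearMap.rTensor V σ.toLinearMap z) i = σ (B.repr z i) := by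
    intro σ z i
    induction z using TensorProduct.induction_on with
    | zero => simp
    | tmul a v =>
      rw [LinearMap.rTensor_tmul, hB, Module.Basis.baseChange_repr_tmul,
        Module.Basis.baseChange_repr_tmul]
      exact (LinearMap.map_smul σ.toLinearMap (b.repr v i) a).symm
    | add x y hx hy => rw [map_add, map_add, Finsupp.add_apply, hx, hy, map_add, Finsupp.add_apply,
        map_add]
  obtain ⟨w0, hw0, hw0ne⟩ := (Submodule.ne_bot_iff W).1 hW
  -- minimal support
  have hex : ∃ n : ℕ, ∃ w ∈ W, w ≠ 0 ∧ (B.repr w).support.card = n := ⟨_, w0, hw0, hw0ne, rfl⟩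
  obtain ⟨w, hw, hwne, hwc⟩ := Nat.find_spec hex
  have hmin : ∀ w' ∈ W, w' ≠ 0 → (B.repr w).support.card ≤ (B.repr w').support.card := by
    intro w' hw' hne
    rw [hwc]
    exact Nat.find_min' hex ⟨w', hw', hne, rfl⟩
  have hrne : B.repr w ≠ 0 := fun h => hwne (B.repr.map_eq_zero_iff.1 h)
  obtain ⟨i0, hi0⟩ := Finsupp.support_nonempty_iff.2 hrne
  have hc0 : B.repr w i0 ≠ 0 := Finsupp.mem_support_iff.1 hi0
  set u := (B.repr w i0)⁻¹ • w with hu
  have huW : u ∈ W := W.smul_mem _ hw
  have hune : u ≠ 0 := smul_ne_zero (inv_ne_zero hc0) hwne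
  have hur : ∀ i, B.repr u i = (B.repr w i0)⁻¹ * B.repr w i := fun i => by
    rw [hu, map_smul, Finsupp.smul_apply, smul_eq_mul]
  have hui0 : B.repr u i0 = 1 := by rw [hur, inv_mul_cancel₀ hc0]
  have husupp : (B.repr u).support = (B.repr w).support := by
    ext i
    rw [Finsupp.mem_support_iff, Finsupp.mem_support_iff, hur]
    simp [hc0]
  have hfix : ∀ (σ : AlgebraicClosure ℚ ≃ₐ[ℚ] AlgebraicClosure ℚ) i,
      σ (B.repr u i) = B.repr u i := by
    intro σ i
    have hd : LinearMap.rTensor V σ.toLinearMap u - u ∈ W := W.sub_mem (hstab σ u huW) huW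
    have hdr : ∀ i, B.repr (LinearMap.rTensor V σ.toLinearMap u - u) i =
        σ (B.repr u i) - B.repr u i := fun i => by
      rw [map_sub, Finsupp.sub_apply, hrepr]
    by_contra hne
    have hdne : LinearMap.rTensor V σ.toLinearMap u - u ≠ 0 := by
      intro h0
      have := hdr i
      rw [h0, map_zero, Finsupp.zero_apply] at this
      exact hne (sub_eq_zero.1 this.symm)
    have hlt : (B.repr (LinearMap.rTensor V σ.toLinearMap u - u)).support ⊂
        (B.repr w).support := by
      rw [Finset.ssubset_iff_of_subset]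
      · refine ⟨i0, hi0, ?_⟩
        rw [Finsupp.mem_support_iff, not_not, hdr, hui0, map_one, sub_self]
      · intro j hj
        rw [← husupp]
        rw [Finsupp.mem_support_iff] at hj ⊢
        intro h0
        apply hj
        rw [hdr, h0, map_zero, sub_zero]
    exact absurd (hmin _ hd hdne) (not_le.2 (Finset.card_lt_card hlt))
  have hcl : ∀ inst : Algebra ℚ (AlgebraicClosure ℚ),
      @IsGalois ℚ _ (AlgebraicClosure ℚ) _ inst := by
    intro inst
    have : inst = AlgebraicClosure.instAlgebra ℚ := Subsingleton.elim _ _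
    subst this
    exact @IsAlgClosure.isGalois ℚ (AlgebraicClosure ℚ) _ _ (AlgebraicClosure.instAlgebra ℚ)
      inferInstance _
  have hgal : IsGalois ℚ (AlgebraicClosure ℚ) := hcl _
  have hrat : ∀ i, ∃ q : ℚ, algebraMap ℚ (AlgebraicClosure ℚ) q = B.repr u i := by
    intro i
    have := (InfiniteGalois.mem_range_algebraMap_iff_fixed (k := ℚ)
      (K := AlgebraicClosure ℚ) (B.repr u i)).2 fun σ => hfix σ i
    exact this
  choose q hq using hrat
  refine ⟨∑ i, q i • b i, ?_, ?_⟩
  · intro h0
    have h1 : q i0 = 0 := by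
      have := congrArg (fun v => b.repr v i0) h0
      simp only [map_sum, map_smul, map_zero, Finsupp.zero_apply] at this
      rw [Finsupp.finsetSum_apply] at this
      simpa [Finsupp.single_apply] using this
    have h2 := hq i0
    rw [h1, map_zero, hui0] at h2
    exact zero_ne_one h2
  · have : (1 : AlgebraicClosure ℚ) ⊗ₜ[ℚ] (∑ i, q i • b i) = u := by
      rw [← B.sum_repr u, TensorProduct.tmul_sum]
      refine Finset.sum_congr rfl fun i _ => ?_
      rw [← hq i, hB, Module.Basis.baseChange_apply, TensorProduct.tmul_smul,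
        algebraMap_smul]
    rw [this]
    exact huW

end W320.RG
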